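import Pool.Agent.Y808.DR.Stm4

/-!
# Auxiliary elements for a prime of height one (author helper410)
-/

set_option autoImplicit false

namespace Pool.Agent.Y410.DR

open Pool.Agent.Y808.DR

universe u

theorem t_FIND : S_FIND.{u} := by
  intro A B _ _ _ _ _ _ _ hinj p w hp hpb hw hrad
  obtain ⟨D, hDp, hD0⟩ := Submodule.exists_mem_ne_zero_of_ne_bot hpb
  have hPprime : (Ideal.span {w}).IsPrime := (Ideal.span_singleton_prime hw.ne_zero).2 hw
  have hpP : p.map (algebraMap A B) ≤ Ideal.span {w} := by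
    rw [← hrad]
    exact Ideal.le_radical
  have hover : ∀ Q : Ideal B, Q.IsPrime → Q.comap (algebraMap A B) = p →
      Ideal.span {w} ≤ Q := by
    intro Q hQ hQp
    rw [← hrad, hQ.radical_le_iff, Ideal.map_le_iff_le_comap, hQp]
  have hcomap : (Ideal.span {w}).comap (algebraMap A B) = p := by
    apply le_antisymm
    · obtain ⟨Q, -, hQ, hQp⟩ := Ideal.exists_ideal_over_prime_of_isIntegral p (⊥ : Ideal B) (by
        intro x hx
        have hx' : algebraMap A B x = 0 := hx
        have hx0 : x = 0 := hinj (by rw [hx', map_zero])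
        rw [hx0]
        exact p.zero_mem)
      have h1 := Ideal.comap_mono (f := algebraMap A B) (hover Q hQ hQp)
      rwa [hQp] at h1
    · exact Ideal.map_le_iff_le_comap.1 hpP
  have hDB : algebraMap A B D ≠ 0 := by
    intro h
    exact hD0 (hinj (by rw [h, map_zero]))
  have hwD : w ∣ algebraMap A B D :=
    Ideal.mem_span_singleton.1 (hpP (Ideal.mem_map_of_mem _ hDp))
  obtain ⟨e, g, hg, he⟩ := WfDvdMonoid.max_power_factor hDB hw.irreducible
  have he0 : e ≠ 0 := by
    rintro rfl
    rw [pow_zero, one_mul] at he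
    exact hg (he ▸ hwD)
  obtain ⟨s, hsp, hsg⟩ : ∃ s : A, s ∉ p ∧ algebraMap A B s ∈ Ideal.span {g} := by
    by_contra hcon
    push Not at hcon
    have hle : (Ideal.span {g}).comap (algebraMap A B) ≤ p := by
      intro s hs
      by_contra hsp
      exact hcon s hsp hs
    obtain ⟨Q, hQg, hQ, hQp⟩ := Ideal.exists_ideal_over_prime_of_isIntegral p (Ideal.span {g}) hle
    have hgQ : g ∈ Q := hQg (Ideal.mem_span_singleton_self g)
    have hgP : g ∉ Ideal.span {w} := fun h => hg (Ideal.mem_span_singleton.1 h)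
    have h1 := Ideal.comap_lt_comap_of_integral_mem_sdiff (R := A) (hover Q hQ hQp)
      (x := g) ⟨hgQ, hgP⟩ (Algebra.IsIntegral.isIntegral g)
    rw [hcomap, hQp] at h1
    exact lt_irrefl _ h1
  obtain ⟨b, hb⟩ := Ideal.mem_span_singleton'.1 hsg
  refine ⟨D, s, g, b, e, he0, hD0, he, fun h => hsp ?_, by rw [mul_comm]; exact hb⟩
  rw [← hcomap]
  exact Ideal.mem_span_singleton.2 h

end Pool.Agent.Y410.DR
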